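import Pool.Agent.H77.SC.Sft

/-!
# SC, INF: the squared influences of the averaged flow
-/

set_option autoImplicit false

namespace Pool.SC

open Finset

namespace Inf

/-- The facts on minimal cuts which are used. -/
structure Cf (a b : ℝ) (R : Rect) (z1 z2 : ℤ) : Prop where
  mn : ∀ T, ∃ S : Set V, adm R z1 z2 S ∧ en a b T R z1 z2 S = flow a b R z1 z2 T
  le : ∀ T (S : Set V), adm R z1 z2 S → flow a b R z1 z2 T ≤ en a b T R z1 z2 S
  nn : ∀ T, 0 ≤ flow a b R z1 z2 T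
  res : ∀ T, flow a b R z1 z2 (T ∩ eds R z1 z2) = flow a b R z1 z2 T
  g0 : ∀ e T, 0 ≤ gr e (flow a b R z1 z2) T
  g1 : ∀ e T, gr e (flow a b R z1 z2) T ≤ b - a
  gz : ∀ e T (S : Set V), adm R z1 z2 S →
      en a b (T.erase e) R z1 z2 S = flow a b R z1 z2 (T.erase e) →
      e ∉ cuts R z1 z2 S → gr e (flow a b R z1 z2) T = 0

theorem cf (hCUT : S_CUT) {a b : ℝ} (ha : 0 < a) (hab : a < b) (R : Rect) {z1 z2 : ℤ}
    (hz : z1 < z2) : Cf a b R z1 z2 := by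
  obtain ⟨h1, h2, h3, h4, h5, h6, -⟩ := hCUT a b R z1 z2 (fun _ => True)
    ((cuts R z1 z2 {v | v.2.2 ≤ z1}).card : ℝ) ha hab hz
    ⟨{v | v.2.2 ≤ z1}, fun v _ => ⟨fun h => h, fun h h' => by
      have h'' : v.2.2 ≤ z1 := h'
      omega⟩, trivial, le_refl _⟩
  refine ⟨fun T => ?_, fun T S hS => h2 T S hS trivial, fun T => (h3 T).1, h4,
    fun e T => (h5 e T).1, fun e T => (h5 e T).2, fun e T S hS h => h6 e T S hS trivial h⟩
  obtain ⟨S, hS, -, h, -⟩ := h1 T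
  exact ⟨S, hS, h⟩

section Res

variable {a b : ℝ} {R : Rect} {z1 z2 : ℤ}

theorem gr_inter (h : Cf a b R z1 z2) (e : Ed) (T : Finset Ed) :
    gr e (flow a b R z1 z2) (T ∩ eds R z1 z2) = gr e (flow a b R z1 z2) T := by
  unfold gr
  rw [← h.res (insert e (T ∩ eds R z1 z2)), ← h.res (insert e T),
    ← h.res ((T ∩ eds R z1 z2).erase e), ← h.res (T.erase e)]
  have h1 : insert e (T ∩ eds R z1 z2) ∩ eds R z1 z2 = insert e T ∩ eds R z1 z2 := by
    ext x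
    simp only [Finset.mem_inter, Finset.mem_insert]
    tauto
  have h2 : (T ∩ eds R z1 z2).erase e ∩ eds R z1 z2 = T.erase e ∩ eds R z1 z2 := by
    ext x
    simp only [Finset.mem_inter, Finset.mem_erase]
    tauto
  rw [h1, h2]

theorem gr_out (h : Cf a b R z1 z2) {e : Ed} (he : e ∉ eds R z1 z2) (T : Finset Ed) :
    gr e (flow a b R z1 z2) T = 0 := by
  unfold gr
  rw [← h.res (insert e T), ← h.res (T.erase e)]
  have h1 : insert e T ∩ eds R z1 z2 = T.erase e ∩ eds R z1 z2 := by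
    ext x
    simp only [Finset.mem_inter, Finset.mem_insert, Finset.mem_erase]
    constructor
    · rintro ⟨h1 | h1, h2⟩
      · rw [h1] at h2
        exact absurd h2 he
      · refine ⟨⟨?_, h1⟩, h2⟩
        rintro rfl
        exact he h2
    · rintro ⟨⟨-, h1⟩, h2⟩
      exact ⟨Or.inr h1, h2⟩
  rw [h1, sub_self]

end Res

/-- The influence of `e` on the flow of the slab `[0, H]`. -/
noncomputable def qq (p a b : ℝ) (n H : ℕ) (e : Ed) : ℝ :=
  ex p (eds (sq n n) 0 (H : ℤ)) (gr e (flow a b (sq n n) 0 (H : ℤ)))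

section Q

variable {p a b : ℝ} {n H : ℕ}

theorem qq_nonneg (hp0 : 0 < p) (hp1 : p < 1) (h : Cf a b (sq n n) 0 (H : ℤ)) (e : Ed) :
    0 ≤ qq p a b n H e :=
  ex_nonneg hp0.le hp1.le fun T _ => h.g0 e T

theorem qq_le (hp0 : 0 < p) (hp1 : p < 1) (h : Cf a b (sq n n) 0 (H : ℤ)) (e : Ed) :
    qq p a b n H e ≤ b - a :=
  ex_le_const hp0.le hp1.le fun T _ => h.g1 e T

theorem qq_out (h : Cf a b (sq n n) 0 (H : ℤ)) {e : Ed} (he : e ∉ eds (sq n n) 0 (H : ℤ)) :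
    qq p a b n H e = 0 := by
  unfold qq
  have h1 : ex p (eds (sq n n) 0 (H : ℤ)) (gr e (flow a b (sq n n) 0 (H : ℤ))) =
      ex p (eds (sq n n) 0 (H : ℤ)) (fun _ => (0 : ℝ)) :=
    ex_congr fun T _ => gr_out h he T
  rw [h1, ex_const]

theorem qq_sh (h : Cf a b (sq n n) 0 (H : ℤ)) (z : ℤ) (e : Ed) {F : Finset Ed}
    (hF : eds (sq n n) z ((H : ℤ) + z) ⊆ F) :
    ex p F (gr e (flow a b (sq n n) z ((H : ℤ) + z))) = qq p a b n H (sh (-z) e) := by
  have h1 : ∀ T : Finset Ed, flow a b (sq n n) z ((H : ℤ) + z) T =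
      flow a b (sq n n) 0 (H : ℤ) (T.map (sh (-z))) := by
    intro T
    rw [flow_sh a b (sq n n) z ((H : ℤ) + z) (-z) T, add_neg_cancel, add_neg_cancel_right]
  have h2 : ∀ T : Finset Ed, gr e (flow a b (sq n n) z ((H : ℤ) + z)) T =
      gr (sh (-z) e) (flow a b (sq n n) 0 (H : ℤ)) (T.map (sh (-z))) := by
    intro T
    unfold gr
    rw [h1, h1, Finset.map_insert, Finset.map_erase]
  have h3 : ex p F (gr e (flow a b (sq n n) z ((H : ℤ) + z))) =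
      ex p F (fun T => gr (sh (-z) e) (flow a b (sq n n) 0 (H : ℤ)) (T.map (sh (-z)))) :=
    ex_congr fun T _ => h2 T
  rw [h3, ← ex_map p F (sh (-z)) (gr (sh (-z) e) (flow a b (sq n n) 0 (H : ℤ)))]
  refine ex_restrict (fun e' he' => ?_) fun T _ => gr_inter h _ T
  rw [Finset.mem_map]
  refine ⟨sh z e', hF ?_, sh_neg' z e'⟩
  have h4 := (eds_sh (sq n n) 0 (H : ℤ) z e').2 he'
  rwa [zero_add] at h4

end Q

/-- The line of an edge. -/
def ky (e : Ed) : Fin 3 × ℤ × ℤ := (e.1, e.2.1, e.2.2.1)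

theorem ky_sh (c : ℤ) (e : Ed) : ky (sh c e) = ky e := rfl

section Sums

variable {G : Ed → ℝ} {F0 : Finset Ed}

theorem sum_sub (h0 : ∀ e, 0 ≤ G e) (ho : ∀ e, e ∉ F0 → G e = 0) (X : Finset Ed)
    (P : Ed → Prop) [DecidablePred P] (hP : ∀ e ∈ X, P e) :
    ∑ e ∈ X, G e ≤ ∑ e ∈ F0.filter P, G e := by
  have h1 : ∑ e ∈ X, G e = ∑ e ∈ X.filter (fun e => e ∈ F0), G e := by
    rw [Finset.sum_filter_of_ne]
    intro e _ he
    by_contra h
    exact he (ho e h)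
  rw [h1]
  refine Finset.sum_le_sum_of_subset_of_nonneg (fun e he => ?_) fun e _ _ => h0 e
  rw [Finset.mem_filter] at he ⊢
  exact ⟨he.2, hP e he.1⟩

theorem sum_shift (h0 : ∀ e, 0 ≤ G e) (ho : ∀ e, e ∉ F0 → G e = 0) (F : Finset Ed) (c : ℤ) :
    ∑ e ∈ F, G (sh c e) ≤ ∑ e ∈ F0, G e := by
  have h1 : ∑ e ∈ F, G (sh c e) = ∑ e ∈ F.map (sh c), G e := (Finset.sum_map _ _ _).symm
  rw [h1]
  have h2 := sum_sub h0 ho (F.map (sh c)) (fun _ => True) fun _ _ => trivial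
  rwa [Finset.filter_true] at h2

theorem sum_line (h0 : ∀ e, 0 ≤ G e) (ho : ∀ e, e ∉ F0 → G e = 0) (M : ℕ) (e : Ed) :
    ∑ z ∈ Finset.range M, G (sh (-(z : ℤ)) e) ≤
      ∑ e' ∈ F0.filter (fun e' => ky e' = ky e), G e' := by
  have hinj : ∀ z ∈ Finset.range M, ∀ z' ∈ Finset.range M,
      sh (-(z : ℤ)) e = sh (-(z' : ℤ)) e → z = z' := by
    intro z _ z' _ h
    have h1 := congrArg (fun e : Ed => e.2.2.2) h
    have h2 : e.2.2.2 + -(z : ℤ) = e.2.2.2 + -(z' : ℤ) := h1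
    omega
  have h1 : ∑ z ∈ Finset.range M, G (sh (-(z : ℤ)) e) =
      ∑ e' ∈ (Finset.range M).image (fun z : ℕ => sh (-(z : ℤ)) e), G e' :=
    (Finset.sum_image hinj).symm
  rw [h1]
  refine sum_sub h0 ho _ (fun e' => ky e' = ky e) fun e' he' => ?_
  obtain ⟨z, -, rfl⟩ := Finset.mem_image.1 he'
  exact ky_sh _ _

end Sums

theorem eds_mono {R Q : Rect} {z1 z2 z1' z2' : ℤ} (h : Q.cols ⊆ R.cols) (h1 : z1' ≤ z1)
    (h2 : z2 ≤ z2') : eds Q z1 z2 ⊆ eds R z1' z2' := by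
  intro e he
  rw [mem_eds, mem_box, mem_box] at he ⊢
  exact ⟨⟨h he.1.1, h1.trans he.1.2.1, he.1.2.2.trans h2⟩,
    ⟨h he.2.1, h1.trans he.2.2.1, he.2.2.2.trans h2⟩⟩

/-- An edge of the box on the line of an edge of the cell. -/
theorem ky_cell {R Q : Rect} {z1 z2 : ℤ} {e e' : Ed} (he : e ∈ eds Q z1 z2)
    (he' : e' ∈ eds R z1 z2) (hk : ky e' = ky e) : e' ∈ eds Q z1 z2 := by
  obtain ⟨i, x, y, k⟩ := e
  obtain ⟨i', x', y', k'⟩ := e'
  simp only [ky, Prod.mk.injEq] at hk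
  obtain ⟨rfl, rfl, rfl⟩ := hk
  rw [mem_eds, mem_box, mem_box] at he he' ⊢
  exact ⟨⟨he.1.1, he'.1.2⟩, ⟨he.2.1, he'.2.2⟩⟩

section Main

variable {p a b : ℝ} {n H M : ℕ}

/-- The influence on the averaged flow. -/
theorem fbar_inf (hH : 1 ≤ H) (hM : 1 ≤ M)
    (hc : ∀ z1 z2 : ℤ, z1 < z2 → Cf a b (sq n n) z1 z2) (e : Ed) :
    ex p (eds (sq n n) 0 ((H : ℤ) + M)) (fun T => |gr e (fbar a b n H M) T|) =
      (∑ z ∈ Finset.range M, qq p a b n H (sh (-(z : ℤ)) e)) / M := by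
  have hM0 : (0 : ℝ) < M := by exact_mod_cast hM
  have h1 : ∀ T, |gr e (fbar a b n H M) T| =
      (∑ z ∈ Finset.range M, gr e (flow a b (sq n n) (z : ℤ) ((H : ℤ) + z)) T) / M := by
    intro T
    have h2 : gr e (fbar a b n H M) T =
        (∑ z ∈ Finset.range M, gr e (flow a b (sq n n) (z : ℤ) ((H : ℤ) + z)) T) / M := by
      unfold gr fbar
      rw [← sub_div, ← Finset.sum_sub_distrib]
    rw [h2, abs_of_nonneg]
    refine div_nonneg (Finset.sum_nonneg fun z _ => ?_) hM0.le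
    exact (hc _ _ (by omega)).g0 e T
  have h2 : ex p (eds (sq n n) 0 ((H : ℤ) + M)) (fun T => |gr e (fbar a b n H M) T|) =
      ex p (eds (sq n n) 0 ((H : ℤ) + M)) (fun T => (∑ z ∈ Finset.range M,
        gr e (flow a b (sq n n) (z : ℤ) ((H : ℤ) + z)) T) / M) := ex_congr fun T _ => h1 T
  rw [h2, ex_div, ex_finsum]
  congr 1
  refine Finset.sum_congr rfl fun z hz => ?_
  have hz' := Finset.mem_range.1 hz
  refine qq_sh (hc 0 (H : ℤ) (by omega)) (z : ℤ) e ?_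
  exact eds_mono (Finset.Subset.refl _) (by omega) (by omega)

/-- The sum of the squared influences, over the lines. -/
theorem sum_inf (hp0 : 0 < p) (hp1 : p < 1) (hH : 1 ≤ H) (hM : 1 ≤ M) (hab : a < b)
    (hc : ∀ z1 z2 : ℤ, z1 < z2 → Cf a b (sq n n) z1 z2) :
    ∑ e ∈ eds (sq n n) 0 ((H : ℤ) + M),
      (ex p (eds (sq n n) 0 ((H : ℤ) + M)) (fun T => |gr e (fbar a b n H M) T|)) ^ 2 ≤
    ∑ e ∈ eds (sq n n) 0 (H : ℤ), min ((∑ e' ∈ (eds (sq n n) 0 (H : ℤ)).filter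
      (fun e' => ky e' = ky e), qq p a b n H e') / M) (b - a) * qq p a b n H e := by
  have hM0 : (0 : ℝ) < M := by exact_mod_cast hM
  have hc0 := hc 0 (H : ℤ) (by omega)
  have hq0 := qq_nonneg hp0 hp1 hc0
  have hqo : ∀ e, e ∉ eds (sq n n) 0 (H : ℤ) → qq p a b n H e = 0 := fun e he => qq_out hc0 he
  obtain ⟨m, hm⟩ : ∃ m : Ed → ℝ, m = fun e => min ((∑ e' ∈ (eds (sq n n) 0 (H : ℤ)).filter
      (fun e' => ky e' = ky e), qq p a b n H e') / M) (b - a) := ⟨_, rfl⟩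
  have hm0 : ∀ e, 0 ≤ m e := by
    intro e
    rw [hm]
    exact le_min (div_nonneg (Finset.sum_nonneg fun e' _ => hq0 e') hM0.le) (by linarith)
  have hms : ∀ (c : ℤ) (e : Ed), m (sh c e) = m e := by
    intro c e
    rw [hm]
    simp only [ky_sh]
  have hI : ∀ e, (∑ z ∈ Finset.range M, qq p a b n H (sh (-(z : ℤ)) e)) / M ≤ m e := by
    intro e
    rw [hm]
    refine le_min ?_ ?_
    · exact div_le_div_of_nonneg_right (sum_line hq0 hqo M e) hM0.le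
    · rw [div_le_iff₀ hM0]
      calc _ ≤ ∑ z ∈ Finset.range M, (b - a) :=
            Finset.sum_le_sum fun z _ => qq_le hp0 hp1 hc0 _
        _ = (b - a) * M := by rw [Finset.sum_const, Finset.card_range, nsmul_eq_mul, mul_comm]
  have hI0 : ∀ e, 0 ≤ (∑ z ∈ Finset.range M, qq p a b n H (sh (-(z : ℤ)) e)) / M := fun e =>
    div_nonneg (Finset.sum_nonneg fun z _ => hq0 _) hM0.le
  calc _ = ∑ e ∈ eds (sq n n) 0 ((H : ℤ) + M),
        ((∑ z ∈ Finset.range M, qq p a b n H (sh (-(z : ℤ)) e)) / M) ^ 2 :=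
        Finset.sum_congr rfl fun e _ => by rw [fbar_inf hH hM hc]
    _ ≤ ∑ e ∈ eds (sq n n) 0 ((H : ℤ) + M),
        m e * ((∑ z ∈ Finset.range M, qq p a b n H (sh (-(z : ℤ)) e)) / M) := by
        refine Finset.sum_le_sum fun e _ => ?_
        rw [pow_two]
        exact mul_le_mul_of_nonneg_right (hI e) (hI0 e)
    _ = (∑ z ∈ Finset.range M, ∑ e ∈ eds (sq n n) 0 ((H : ℤ) + M),
        m (sh (-(z : ℤ)) e) * qq p a b n H (sh (-(z : ℤ)) e)) / M := by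
        rw [Finset.sum_comm, Finset.sum_div]
        refine Finset.sum_congr rfl fun e _ => ?_
        simp only [hms]
        rw [← Finset.mul_sum, mul_div_assoc]
    _ ≤ (∑ z ∈ Finset.range M, ∑ e ∈ eds (sq n n) 0 (H : ℤ), m e * qq p a b n H e) / M := by
        refine div_le_div_of_nonneg_right (Finset.sum_le_sum fun z _ => ?_) hM0.le
        exact sum_shift (G := fun e => m e * qq p a b n H e)
          (fun e => mul_nonneg (hm0 e) (hq0 e)) (fun e he => by rw [hqo e he, mul_zero]) _ _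
    _ = ∑ e ∈ eds (sq n n) 0 (H : ℤ), m e * qq p a b n H e := by
        rw [Finset.sum_const, Finset.card_range, nsmul_eq_mul, mul_div_cancel_left₀ _ hM0.ne']
    _ = _ := by rw [hm]

/-- The influences and the minimal cut. -/
theorem sum_qq (hp0 : 0 < p) (hp1 : p < 1) (hab : a < b) (hc : Cf a b (sq n n) 0 (H : ℤ))
    {S : Finset Ed → Set V} (hS : ∀ T, adm (sq n n) 0 (H : ℤ) (S T) ∧
      en a b T (sq n n) 0 (H : ℤ) (S T) = flow a b (sq n n) 0 (H : ℤ) T) (X : Finset Ed)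
    (hX : X ⊆ eds (sq n n) 0 (H : ℤ)) :
    ∑ e ∈ X, qq p a b n H e ≤ (b - a) / (1 - p) * ex p (eds (sq n n) 0 (H : ℤ))
      (fun T => ((X ∩ cuts (sq n n) 0 (H : ℤ) (S T)).card : ℝ)) := by
  classical
  have h1 : ∀ e ∈ X, qq p a b n H e ≤ (b - a) / (1 - p) * ex p (eds (sq n n) 0 (H : ℤ))
      (fun T => if e ∈ cuts (sq n n) 0 (H : ℤ) (S T) then (1 : ℝ) else 0) := by
    intro e he
    have h2 := ex_gr (hX he) hp1 (flow a b (sq n n) 0 (H : ℤ)) (fun x => x)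
    have h3 : qq p a b n H e = ex p (eds (sq n n) 0 (H : ℤ))
        (fun s => gr e (flow a b (sq n n) 0 (H : ℤ)) s) := rfl
    have h4 : (b - a) / (1 - p) * ex p (eds (sq n n) 0 (H : ℤ))
        (fun T => if e ∈ cuts (sq n n) 0 (H : ℤ) (S T) then (1 : ℝ) else 0) =
        (1 - p)⁻¹ * ex p (eds (sq n n) 0 (H : ℤ))
        (fun T => (b - a) * if e ∈ cuts (sq n n) 0 (H : ℤ) (S T) then (1 : ℝ) else 0) := by
      rw [ex_mul_left]
      ring
    rw [h3, h2, h4]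
    have h5 : (0 : ℝ) ≤ (1 - p)⁻¹ := inv_nonneg.2 (by linarith)
    refine mul_le_mul_of_nonneg_left (ex_mono hp0.le hp1.le fun T _ => ?_) h5
    by_cases heT : e ∈ T
    · rw [if_pos heT]
      refine mul_nonneg (by linarith) ?_
      split_ifs
      · exact zero_le_one
      · exact le_refl _
    · rw [if_neg heT]
      by_cases hcut : e ∈ cuts (sq n n) 0 (H : ℤ) (S T)
      · rw [if_pos hcut, mul_one]
        exact hc.g1 e T
      · rw [if_neg hcut, mul_zero]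
        refine (hc.gz e T (S T) (hS T).1 ?_ hcut).le
        rw [Finset.erase_eq_of_notMem heT]
        exact (hS T).2
  calc _ ≤ ∑ e ∈ X, (b - a) / (1 - p) * ex p (eds (sq n n) 0 (H : ℤ))
        (fun T => if e ∈ cuts (sq n n) 0 (H : ℤ) (S T) then (1 : ℝ) else 0) :=
        Finset.sum_le_sum h1
    _ = _ := by
        rw [← Finset.mul_sum, ← ex_finsum]
        congr 1
        refine ex_congr fun T _ => ?_
        rw [Finset.sum_ite_mem, Finset.sum_const, nsmul_eq_mul, mul_one]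

theorem card_le_en (hab : a < b) (T : Finset Ed) (R : Rect) (z1 z2 : ℤ)
    (S : Set V) : a * ((cuts R z1 z2 S).card : ℝ) ≤ en a b T R z1 z2 S := by
  unfold en
  rw [mul_comm, ← nsmul_eq_mul, ← Finset.sum_const]
  refine Finset.sum_le_sum fun e _ => ?_
  unfold cap
  split_ifs
  · exact hab.le
  · exact le_refl _

/-- The elementary inequality. -/
theorem elem {c0 β x y W : ℝ} {M : ℝ} (hM : 0 < M) (hc : 0 < c0) (hβ : 0 < β)
    (hy : 0 ≤ y) (hW0 : 0 ≤ W) (hW : W ≤ c0 * (x + y)) :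
    min (W / M) β * W ≤ 4 * c0 ^ 2 * x ^ 2 / M + 2 * c0 * β * y := by
  rcases le_total y x with h | h
  · have h1 : W ≤ 2 * c0 * x := by nlinarith
    have h2 : min (W / M) β * W ≤ W / M * W :=
      mul_le_mul_of_nonneg_right (min_le_left _ _) hW0
    have h3 : W / M * W = W ^ 2 / M := by ring
    have h4 : W ^ 2 ≤ (2 * c0 * x) ^ 2 := pow_le_pow_left₀ hW0 h1 2
    have h5 : W ^ 2 / M ≤ (2 * c0 * x) ^ 2 / M := div_le_div_of_nonneg_right h4 hM.le
    have h6 : (2 * c0 * x) ^ 2 / M = 4 * c0 ^ 2 * x ^ 2 / M := by ring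
    have h7 : 0 ≤ 2 * c0 * β * y := by positivity
    linarith
  · have h1 : W ≤ 2 * c0 * y := by nlinarith
    have h2 : min (W / M) β * W ≤ β * W :=
      mul_le_mul_of_nonneg_right (min_le_right _ _) hW0
    have h3 : β * W ≤ β * (2 * c0 * y) := mul_le_mul_of_nonneg_left h1 hβ.le
    have h4 : 0 ≤ 4 * c0 ^ 2 * x ^ 2 / M := by positivity
    nlinarith

end Main

end Inf

open Inf in
/-- INF. -/
theorem inf_thm (hCUT : S_CUT) (hSUP : S_SUP) (hCEL : S_CEL) (hINV : S_INV) (hNU : S_NU) :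
    S_INF := by
  classical
  intro p a b hp0 hp1 ha hab
  have hp : 0 < 1 - p := by linarith
  have hβ : 0 < b - a := by linarith
  have hb : 0 < b := by linarith
  obtain ⟨c0, hc0, hc0'⟩ : ∃ c0 : ℝ, 0 < c0 ∧ c0 = (b - a) / (1 - p) / a :=
    ⟨_, by positivity, rfl⟩
  refine ⟨64 * c0 ^ 2 * b ^ 2 + 2 * c0 * (b - a), by positivity, ?_⟩
  intro n H M r E hr hrn hH hM hE hph
  have hM0 : (0 : ℝ) < M := by exact_mod_cast hM
  have hr0 : (0 : ℝ) < r := by exact_mod_cast hr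
  have hHz : (0 : ℤ) < (H : ℤ) := by omega
  have hc : ∀ z1 z2 : ℤ, z1 < z2 → Cf a b (sq n n) z1 z2 := fun z1 z2 h => cf hCUT ha hab _ h
  have hc1 := hc 0 (H : ℤ) hHz
  have hq0 := qq_nonneg hp0 hp1 hc1
  choose S hS using hc1.mn
  obtain ⟨Rs, hRs, hdis, harea, hcard⟩ := hCEL (sq n n) r hr hrn hrn
  obtain ⟨hnu0, hnub, hnu⟩ := hNU p a b H hp0 hp1 ha hab hH
  have hsub : ∀ Q ∈ Rs, eds Q 0 (H : ℤ) ⊆ eds (sq n n) 0 (H : ℤ) := fun Q hQ =>
    eds_mono (hRs Q hQ).1 (le_refl _) (le_refl _)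
  -- the energy of a cell
  have hW : ∀ Q ∈ Rs, ∑ e ∈ eds Q 0 (H : ℤ), qq p a b n H e ≤
      c0 * ex p (eds (sq n n) 0 (H : ℤ)) (fun T => en a b T Q 0 (H : ℤ) (S T)) := by
    intro Q hQ
    refine (sum_qq hp0 hp1 hab hc1 hS _ (hsub Q hQ)).trans ?_
    rw [hc0', div_mul_eq_mul_div ((b - a) / (1 - p)) a, mul_div_assoc, ← ex_div]
    refine mul_le_mul_of_nonneg_left (ex_mono hp0.le hp1.le fun T _ => ?_) (by positivity)
    rw [le_div_iff₀ ha, mul_comm]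
    have h1 : eds Q 0 (H : ℤ) ∩ cuts (sq n n) 0 (H : ℤ) (S T) = cuts Q 0 (H : ℤ) (S T) := by
      ext e
      rw [Finset.mem_inter, mem_cuts, mem_cuts]
      exact ⟨fun h => ⟨h.1, h.2.2⟩, fun h => ⟨h.1, hsub Q hQ h.1, h.2⟩⟩
    rw [h1]
    exact card_le_en hab T Q 0 (H : ℤ) (S T)
  have hphQ : ∀ Q ∈ Rs, ph p a b Q.w Q.l H ≤
      ex p (eds (sq n n) 0 (H : ℤ)) (fun T => en a b T Q 0 (H : ℤ) (S T)) := by
    intro Q hQ
    have h1 := hINV p a b Q 0 H (eds (sq n n) 0 (H : ℤ)) hp0 hp1 ha hab hH (by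
      rw [zero_add]
      exact hsub Q hQ)
    rw [zero_add] at h1
    rw [← h1]
    refine ex_mono hp0.le hp1.le fun T _ => (cf hCUT ha hab Q hHz).le T (S T) fun v hv => ?_
    exact (hS T).1 v ((hRs Q hQ).1 hv)
  have hph0 : ∀ Q ∈ Rs, 0 ≤ ph p a b Q.w Q.l H := fun Q _ =>
    ex_nonneg hp0.le hp1.le fun T _ => (cf hCUT ha hab (sq Q.w Q.l) hHz).nn T
  have hphb : ∀ Q ∈ Rs, ph p a b Q.w Q.l H ≤ 4 * b * (r : ℝ) ^ 2 := by
    intro Q hQ
    obtain ⟨-, -, h2, -, h4⟩ := hRs Q hQ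
    have h5 : (Q.w : ℝ) ≤ 2 * r := by exact_mod_cast h2.le
    have h6 : (Q.l : ℝ) ≤ 2 * r := by exact_mod_cast h4.le
    have h7 : (Q.w : ℝ) * Q.l ≤ (2 * r) * (2 * r) :=
      mul_le_mul h5 h6 (Nat.cast_nonneg _) (by positivity)
    calc ph p a b Q.w Q.l H ≤ nu p a b H * (Q.w * Q.l) := hnu _ _
      _ ≤ b * (Q.w * Q.l) := mul_le_mul_of_nonneg_right hnub (by positivity)
      _ ≤ b * ((2 * r) * (2 * r)) := mul_le_mul_of_nonneg_left h7 hb.le
      _ = 4 * b * (r : ℝ) ^ 2 := by ring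
  -- superadditivity
  obtain ⟨U, hU⟩ : ∃ U : Finset Ed, U = Rs.biUnion (fun Q => eds Q 0 (H : ℤ)) := ⟨_, rfl⟩
  have hUsub : U ⊆ eds (sq n n) 0 (H : ℤ) := by
    rw [hU]
    intro e he
    obtain ⟨Q, hQ, h⟩ := Finset.mem_biUnion.1 he
    exact hsub Q hQ h
  obtain ⟨B, hB⟩ : ∃ B : ℝ, B = ex p (eds (sq n n) 0 (H : ℤ))
      (fun T => (((eds (sq n n) 0 (H : ℤ) \ U) ∩ cuts (sq n n) 0 (H : ℤ) (S T)).card : ℝ)) :=
    ⟨_, rfl⟩
  have hsup : ∑ Q ∈ Rs, ex p (eds (sq n n) 0 (H : ℤ))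
      (fun T => en a b T Q 0 (H : ℤ) (S T)) + a * B ≤ ph p a b n n H := by
    rw [hB, ← ex_finsum, ← ex_mul_left, ← ex_add]
    refine ex_mono hp0.le hp1.le fun T _ => ?_
    have h1 := hSUP a b (sq n n) 0 (H : ℤ) Rs T (S T) ha hab (fun Q hQ => (hRs Q hQ).1) hdis
    rw [(hS T).2, ← hU] at h1
    have h2 : (eds (sq n n) 0 (H : ℤ) \ U) ∩ cuts (sq n n) 0 (H : ℤ) (S T) =
        cuts (sq n n) 0 (H : ℤ) (S T) \ U := by
      ext e
      rw [Finset.mem_inter, Finset.mem_sdiff, Finset.mem_sdiff, mem_cuts]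
      tauto
    rw [h2]
    exact h1
  have hexc : ∑ Q ∈ Rs, (ex p (eds (sq n n) 0 (H : ℤ))
      (fun T => en a b T Q 0 (H : ℤ) (S T)) - ph p a b Q.w Q.l H) + a * B ≤ E * Rs.card := by
    rw [Finset.sum_sub_distrib]
    have h1 : ∑ Q ∈ Rs, (nu p a b H * ((Q.w : ℝ) * Q.l) - E) ≤
        ∑ Q ∈ Rs, ph p a b Q.w Q.l H := by
      refine Finset.sum_le_sum fun Q hQ => ?_
      obtain ⟨-, h1, h2, h3, h4⟩ := hRs Q hQ
      exact hph Q.w Q.l h1 h2 h3 h4
    rw [Finset.sum_sub_distrib, ← Finset.mul_sum, Finset.sum_const, nsmul_eq_mul] at h1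
    have h2 : ∑ Q ∈ Rs, (Q.w : ℝ) * Q.l = (n : ℝ) * n := by
      have h3 : ((∑ Q ∈ Rs, Q.w * Q.l : ℕ) : ℝ) = ((n * n : ℕ) : ℝ) := by
        rw [harea]
        rfl
      push_cast at h3
      exact h3
    rw [h2] at h1
    have h3 := hnu n n
    linarith
  -- the sum over the cells
  refine (sum_inf hp0 hp1 hH hM hab hc).trans ?_
  have hm0 : ∀ e, 0 ≤ min ((∑ e' ∈ (eds (sq n n) 0 (H : ℤ)).filter
      (fun e' => ky e' = ky e), qq p a b n H e') / M) (b - a) := fun e =>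
    le_min (div_nonneg (Finset.sum_nonneg fun e' _ => hq0 e') hM0.le) hβ.le
  have hsplit : ∑ e ∈ eds (sq n n) 0 (H : ℤ), min ((∑ e' ∈ (eds (sq n n) 0 (H : ℤ)).filter
      (fun e' => ky e' = ky e), qq p a b n H e') / M) (b - a) * qq p a b n H e =
      ∑ e ∈ eds (sq n n) 0 (H : ℤ) \ U, min ((∑ e' ∈ (eds (sq n n) 0 (H : ℤ)).filter
      (fun e' => ky e' = ky e), qq p a b n H e') / M) (b - a) * qq p a b n H e +
      ∑ Q ∈ Rs, ∑ e ∈ eds Q 0 (H : ℤ), min ((∑ e' ∈ (eds (sq n n) 0 (H : ℤ)).filter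
      (fun e' => ky e' = ky e), qq p a b n H e') / M) (b - a) * qq p a b n H e := by
    rw [← Finset.sum_sdiff hUsub]
    congr 1
    rw [hU]
    refine Finset.sum_biUnion fun Q hQ Q' hQ' hne => ?_
    refine Finset.disjoint_left.2 fun e he he' => ?_
    rw [mem_eds, mem_box] at he he'
    exact Finset.disjoint_left.1 (hdis Q hQ Q' hQ' hne) he.1.1 he'.1.1
  rw [hsplit]
  have hrest : ∑ e ∈ eds (sq n n) 0 (H : ℤ) \ U, min ((∑ e' ∈ (eds (sq n n) 0 (H : ℤ)).filter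
      (fun e' => ky e' = ky e), qq p a b n H e') / M) (b - a) * qq p a b n H e ≤
      (b - a) * (c0 * (a * B)) := by
    calc _ ≤ ∑ e ∈ eds (sq n n) 0 (H : ℤ) \ U, (b - a) * qq p a b n H e :=
          Finset.sum_le_sum fun e _ => mul_le_mul_of_nonneg_right (min_le_right _ _) (hq0 e)
      _ = (b - a) * ∑ e ∈ eds (sq n n) 0 (H : ℤ) \ U, qq p a b n H e := by
          rw [Finset.mul_sum]
      _ ≤ _ := by
          refine mul_le_mul_of_nonneg_left ?_ hβ.le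
          refine (sum_qq hp0 hp1 hab hc1 hS _ Finset.sdiff_subset).trans ?_
          rw [← hB, hc0']
          have : (b - a) / (1 - p) / a * (a * B) = (b - a) / (1 - p) * B := by
            field_simp
          rw [this]
  have hcell : ∀ Q ∈ Rs, ∑ e ∈ eds Q 0 (H : ℤ), min ((∑ e' ∈ (eds (sq n n) 0 (H : ℤ)).filter
      (fun e' => ky e' = ky e), qq p a b n H e') / M) (b - a) * qq p a b n H e ≤
      4 * c0 ^ 2 * (ph p a b Q.w Q.l H) ^ 2 / M + 2 * c0 * (b - a) *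
        (ex p (eds (sq n n) 0 (H : ℤ)) (fun T => en a b T Q 0 (H : ℤ) (S T)) -
          ph p a b Q.w Q.l H) := by
    intro Q hQ
    have hW0 : 0 ≤ ∑ e ∈ eds Q 0 (H : ℤ), qq p a b n H e := Finset.sum_nonneg fun e _ => hq0 e
    calc _ ≤ ∑ e ∈ eds Q 0 (H : ℤ), min ((∑ e' ∈ eds Q 0 (H : ℤ), qq p a b n H e') / M)
            (b - a) * qq p a b n H e := by
          refine Finset.sum_le_sum fun e he => mul_le_mul_of_nonneg_right ?_ (hq0 e)
          refine min_le_min_right _ (div_le_div_of_nonneg_right ?_ hM0.le)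
          refine Finset.sum_le_sum_of_subset_of_nonneg (fun e' he' => ?_) fun e' _ _ => hq0 e'
          rw [Finset.mem_filter] at he'
          exact ky_cell he he'.1 he'.2
      _ = min ((∑ e' ∈ eds Q 0 (H : ℤ), qq p a b n H e') / M) (b - a) *
            ∑ e ∈ eds Q 0 (H : ℤ), qq p a b n H e := by rw [Finset.mul_sum]
      _ ≤ _ := by
          refine elem hM0 hc0 hβ (by linarith [hphQ Q hQ]) hW0 ?_
          rw [add_sub_cancel]
          exact hW Q hQ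
  have hcells : ∑ Q ∈ Rs, ∑ e ∈ eds Q 0 (H : ℤ), min ((∑ e' ∈ (eds (sq n n) 0 (H : ℤ)).filter
      (fun e' => ky e' = ky e), qq p a b n H e') / M) (b - a) * qq p a b n H e ≤
      4 * c0 ^ 2 * (4 * b * (r : ℝ) ^ 2) ^ 2 / M * Rs.card + 2 * c0 * (b - a) *
        ∑ Q ∈ Rs, (ex p (eds (sq n n) 0 (H : ℤ)) (fun T => en a b T Q 0 (H : ℤ) (S T)) -
          ph p a b Q.w Q.l H) := by
    refine (Finset.sum_le_sum hcell).trans ?_
    rw [Finset.sum_add_distrib, ← Finset.mul_sum]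
    refine add_le_add ?_ (le_refl _)
    calc _ ≤ ∑ Q ∈ Rs, 4 * c0 ^ 2 * (4 * b * (r : ℝ) ^ 2) ^ 2 / M := by
          refine Finset.sum_le_sum fun Q hQ => ?_
          refine div_le_div_of_nonneg_right ?_ hM0.le
          exact mul_le_mul_of_nonneg_left (pow_le_pow_left₀ (hph0 Q hQ) (hphb Q hQ) 2)
            (by positivity)
      _ = _ := by rw [Finset.sum_const, nsmul_eq_mul, mul_comm]
  have hcard' : (Rs.card : ℝ) ≤ (n : ℝ) ^ 2 / (r : ℝ) ^ 2 := by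
    rw [le_div_iff₀ (by positivity)]
    have h1 : ((Rs.card * r ^ 2 : ℕ) : ℝ) ≤ ((n * n : ℕ) : ℝ) := by exact_mod_cast hcard
    push_cast at h1
    nlinarith
  have hrr : (r : ℝ) ^ 2 ≠ 0 := by positivity
  calc _ ≤ (b - a) * (c0 * (a * B)) + (4 * c0 ^ 2 * (4 * b * (r : ℝ) ^ 2) ^ 2 / M * Rs.card +
        2 * c0 * (b - a) * ∑ Q ∈ Rs, (ex p (eds (sq n n) 0 (H : ℤ))
          (fun T => en a b T Q 0 (H : ℤ) (S T)) - ph p a b Q.w Q.l H)) :=
        add_le_add hrest hcells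
    _ ≤ 4 * c0 ^ 2 * (4 * b * (r : ℝ) ^ 2) ^ 2 / M * Rs.card +
        2 * c0 * (b - a) * (E * Rs.card) := by
        have hB0 : 0 ≤ B := by
          rw [hB]
          exact ex_nonneg hp0.le hp1.le fun T _ => Nat.cast_nonneg _
        have h1 : 0 ≤ (b - a) * (c0 * (a * B)) := by positivity
        have h2 := mul_le_mul_of_nonneg_left hexc (by positivity : 0 ≤ 2 * c0 * (b - a))
        linarith
    _ ≤ 4 * c0 ^ 2 * (4 * b * (r : ℝ) ^ 2) ^ 2 / M * ((n : ℝ) ^ 2 / (r : ℝ) ^ 2) +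
        2 * c0 * (b - a) * (E * ((n : ℝ) ^ 2 / (r : ℝ) ^ 2)) := by
        refine add_le_add (mul_le_mul_of_nonneg_left hcard' (by positivity)) ?_
        exact mul_le_mul_of_nonneg_left (mul_le_mul_of_nonneg_left hcard' hE) (by positivity)
    _ = 64 * c0 ^ 2 * b ^ 2 * ((n : ℝ) ^ 2 * (r : ℝ) ^ 2 / M) +
        2 * c0 * (b - a) * ((n : ℝ) ^ 2 * E / (r : ℝ) ^ 2) := by
        field_simp
        ring
    _ ≤ _ := by
        have h1 : 0 ≤ (n : ℝ) ^ 2 * (r : ℝ) ^ 2 / M := by positivity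
        have h2 : 0 ≤ (n : ℝ) ^ 2 * E / (r : ℝ) ^ 2 := by positivity
        have h3 : 0 ≤ 64 * c0 ^ 2 * b ^ 2 := by positivity
        have h4 : 0 ≤ 2 * c0 * (b - a) := by positivity
        nlinarith [mul_nonneg h3 h2, mul_nonneg h4 h1]

end Pool.SC
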