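import Pool.Agent.H61.SC.Stmts
import Pool.Agent.H61.SC.Ex

/-!
# SC, INF: vertical shifts
-/

set_option autoImplicit false

namespace Pool.SC

open Finset

namespace Inf

theorem mem_cols (R : Rect) (q : ℤ × ℤ) : q ∈ R.cols ↔
    (R.x ≤ q.1 ∧ q.1 < R.x + R.w) ∧ (R.y ≤ q.2 ∧ q.2 < R.y + R.l) := by
  simp only [Rect.cols, Finset.mem_product, Finset.mem_Ico]

theorem mem_box (R : Rect) (z1 z2 : ℤ) (v : V) : v ∈ box R z1 z2 ↔
    (v.1, v.2.1) ∈ R.cols ∧ z1 ≤ v.2.2 ∧ v.2.2 ≤ z2 := by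
  simp only [box, Rect.cols, Finset.mem_product, Finset.mem_Ico, Finset.mem_Icc]
  tauto

theorem mem_eds (R : Rect) (z1 z2 : ℤ) (e : Ed) : e ∈ eds R z1 z2 ↔
    hd e ∈ box R z1 z2 ∧ tl e ∈ box R z1 z2 := by
  simp only [eds, hd, Finset.mem_filter, Finset.mem_product, Finset.mem_univ, true_and]

theorem mem_cuts (R : Rect) (z1 z2 : ℤ) (S : Set V) (e : Ed) : e ∈ cuts R z1 z2 S ↔
    e ∈ eds R z1 z2 ∧ cutE S e := by
  classical
  simp only [cuts, Finset.mem_filter]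

/-- The vertical shift of a vertex. -/
def shv (c : ℤ) (v : V) : V := (v.1, v.2.1, v.2.2 + c)

/-- The vertical shift of an edge. -/
def sh (c : ℤ) : Ed ↪ Ed := ⟨fun e => (e.1, shv c e.2), by
  rintro ⟨i, x, y, k⟩ ⟨i', x', y', k'⟩ h
  simp only [shv, Prod.mk.injEq] at h ⊢
  obtain ⟨h1, h2, h3, h4⟩ := h
  exact ⟨h1, h2, h3, by omega⟩⟩

theorem hd_sh (c : ℤ) (e : Ed) : hd (sh c e) = shv c (hd e) := rfl

theorem tl_sh (c : ℤ) (e : Ed) : tl (sh c e) = shv c (tl e) := by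
  obtain ⟨i, x, y, k⟩ := e
  show (x, y, k + c) + unitv i = shv c ((x, y, k) + unitv i)
  simp only [shv, Prod.ext_iff, Prod.fst_add, Prod.snd_add]
  exact ⟨trivial, trivial, by ring⟩

theorem shv_shv (c d : ℤ) (v : V) : shv c (shv d v) = shv (d + c) v := by
  simp only [shv, add_assoc]

theorem shv_zero (v : V) : shv 0 v = v := by
  simp only [shv, add_zero]

theorem sh_neg (c : ℤ) (e : Ed) : sh c (sh (-c) e) = e := by
  obtain ⟨i, v⟩ := e
  show (i, shv c (shv (-c) v)) = (i, v)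
  rw [shv_shv, neg_add_cancel, shv_zero]

theorem sh_neg' (c : ℤ) (e : Ed) : sh (-c) (sh c e) = e := by
  obtain ⟨i, v⟩ := e
  show (i, shv (-c) (shv c v)) = (i, v)
  rw [shv_shv, add_neg_cancel, shv_zero]

theorem box_sh (R : Rect) (z1 z2 c : ℤ) (v : V) :
    shv c v ∈ box R (z1 + c) (z2 + c) ↔ v ∈ box R z1 z2 := by
  rw [mem_box, mem_box]
  show (v.1, v.2.1) ∈ R.cols ∧ z1 + c ≤ v.2.2 + c ∧ v.2.2 + c ≤ z2 + c ↔ _
  rw [add_le_add_iff_right, add_le_add_iff_right]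

theorem eds_sh (R : Rect) (z1 z2 c : ℤ) (e : Ed) :
    sh c e ∈ eds R (z1 + c) (z2 + c) ↔ e ∈ eds R z1 z2 := by
  rw [mem_eds, mem_eds, hd_sh, tl_sh, box_sh, box_sh]

/-- The shifted set. -/
def shS (c : ℤ) (S : Set V) : Set V := {v | shv (-c) v ∈ S}

theorem mem_shS (c : ℤ) (S : Set V) (v : V) : shv c v ∈ shS c S ↔ v ∈ S := by
  show shv (-c) (shv c v) ∈ S ↔ v ∈ S
  rw [shv_shv, add_neg_cancel, shv_zero]

theorem cutE_sh (c : ℤ) (S : Set V) (e : Ed) : cutE (shS c S) (sh c e) ↔ cutE S e := by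
  rw [cutE, cutE, hd_sh, tl_sh, mem_shS, mem_shS]

theorem cuts_sh (R : Rect) (z1 z2 c : ℤ) (S : Set V) :
    cuts R (z1 + c) (z2 + c) (shS c S) = (cuts R z1 z2 S).map (sh c) := by
  ext e
  rw [Finset.mem_map]
  constructor
  · intro h
    refine ⟨sh (-c) e, ?_, sh_neg c e⟩
    rw [mem_cuts] at h ⊢
    rw [← sh_neg c e, eds_sh, cutE_sh] at h
    exact h
  · rintro ⟨e', h, rfl⟩
    rw [mem_cuts] at h ⊢
    rwa [eds_sh, cutE_sh]

theorem en_sh (a b : ℝ) (T : Finset Ed) (R : Rect) (z1 z2 c : ℤ) (S : Set V) :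
    en a b (T.map (sh c)) R (z1 + c) (z2 + c) (shS c S) = en a b T R z1 z2 S := by
  unfold en
  rw [cuts_sh, Finset.sum_map]
  refine Finset.sum_congr rfl fun e _ => ?_
  unfold cap
  simp only [Finset.mem_map']

theorem adm_sh {R : Rect} {z1 z2 : ℤ} (c : ℤ) {S : Set V} (h : adm R z1 z2 S) :
    adm R (z1 + c) (z2 + c) (shS c S) := by
  intro v hv
  have h1 := h (shv (-c) v) hv
  constructor
  · intro h2
    refine h1.1 ?_
    show v.2.2 + -c ≤ z1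
    omega
  · intro h2
    refine h1.2 ?_
    show z2 ≤ v.2.2 + -c
    omega

theorem set_sh (a b : ℝ) (R : Rect) (z1 z2 c : ℤ) (T : Finset Ed) :
    {r : ℝ | ∃ S : Set V, adm R z1 z2 S ∧ True ∧ r = en a b T R z1 z2 S} ⊆
    {r : ℝ | ∃ S : Set V, adm R (z1 + c) (z2 + c) S ∧ True ∧
      r = en a b (T.map (sh c)) R (z1 + c) (z2 + c) S} := by
  rintro r ⟨S, h1, -, rfl⟩
  exact ⟨shS c S, adm_sh c h1, trivial, (en_sh a b T R z1 z2 c S).symm⟩

theorem map_sh (c : ℤ) (T : Finset Ed) : (T.map (sh c)).map (sh (-c)) = T := by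
  ext e
  simp only [Finset.mem_map]
  constructor
  · rintro ⟨e', ⟨e'', h, rfl⟩, rfl⟩
    rwa [sh_neg']
  · intro h
    exact ⟨sh c e, ⟨e, h, rfl⟩, sh_neg' c e⟩

/-- Vertical shift of the flow. -/
theorem flow_sh (a b : ℝ) (R : Rect) (z1 z2 c : ℤ) (T : Finset Ed) :
    flow a b R z1 z2 T = flow a b R (z1 + c) (z2 + c) (T.map (sh c)) := by
  unfold flow flowC
  refine congrArg sInf (Set.Subset.antisymm (set_sh a b R z1 z2 c T) ?_)
  have h := set_sh a b R (z1 + c) (z2 + c) (-c) (T.map (sh c))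
  rw [map_sh, add_neg_cancel_right, add_neg_cancel_right] at h
  exact h

end Inf

end Pool.SC
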